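import Mathlib

/-!
Module KRON of the crew project on MP_7a8f48_an: Kronecker's theorem.
-/

set_option autoImplicit false

namespace Pool.Agent.Helper80.Lin

universe u

theorem KRON {F : Type u} [Field F] [CharZero F] (ρ : F) (hρ : IsIntegral ℤ ρ) (h0 : ρ ≠ 0)
    (hroot : ∀ n : ℕ, 1 ≤ n → ρ ^ n ≠ 1) :
    ∃ β : ℂ, Polynomial.aeval β (minpoly ℚ ρ) = 0 ∧ ‖β‖ ≠ 1 := by
  have _ := h0
  have hQ : IsIntegral ℚ ρ := hρ.tower_top
  let K : IntermediateField ℚ F := IntermediateField.adjoin ℚ {ρ}
  have : FiniteDimensional ℚ K := IntermediateField.adjoin.finiteDimensional hQ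
  have : NumberField K := ⟨⟩
  let x : K := IntermediateField.AdjoinSimple.gen ℚ ρ
  have hx : algebraMap K F x = ρ := IntermediateField.AdjoinSimple.algebraMap_gen ℚ ρ
  have hxi : IsIntegral ℤ x := by
    have h : IsIntegral ℤ (algebraMap K F x) := by rw [hx]; exact hρ
    exact (isIntegral_algebraMap_iff (algebraMap K F).injective).mp h
  by_contra hcon
  push Not at hcon
  have hmin : Polynomial.aeval x (minpoly ℚ ρ) = 0 := by
    apply (algebraMap K F).injective
    rw [map_zero, ← Polynomial.aeval_algebraMap_apply, hx, minpoly.aeval]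
  have hall : ∀ φ : K →+* ℂ, ‖φ x‖ = 1 := by
    intro φ
    apply hcon
    have h := congrArg φ hmin
    rw [map_zero] at h
    rw [← h]
    have h2 := Polynomial.aeval_algHom_apply φ.toRatAlgHom x (minpoly ℚ ρ)
    exact h2
  obtain ⟨n, hn, hxn⟩ := NumberField.Embeddings.pow_eq_one_of_norm_eq_one (K := K) ℂ hxi hall
  apply hroot n hn
  rw [← hx, ← map_pow, hxn, map_one]

end Pool.Agent.Helper80.Lin
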